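import Mathlib

/-!
# Decision trees, projections and alternating classes (semantic versions)
-/

namespace Pool.Agent.HDH

open Finset

variable {V : Type}

/-- `DT t f`: the Boolean function `f` has a decision tree of depth at most `t`. -/
inductive DT {V : Type} : ℕ → ((V → Bool) → Prop) → Prop
  | const (t : ℕ) (f : (V → Bool) → Prop) (b : Prop) (hf : ∀ x, f x ↔ b) : DT t f
  | node (t : ℕ) (i : V) (f f0 f1 : (V → Bool) → Prop) (h0 : DT t f0) (h1 : DT t f1)
      (ht : ∀ x, x i = true → (f x ↔ f1 x)) (hfa : ∀ x, x i = false → (f x ↔ f0 x)) :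
      DT (t + 1) f

theorem DT.succ {t : ℕ} {f : (V → Bool) → Prop} (h : DT t f) : DT (t + 1) f := by
  induction h with
  | const t f b hf => exact DT.const _ f b hf
  | node t i f f0 f1 h0 h1 ht hfa ih0 ih1 => exact DT.node _ i f f0 f1 ih0 ih1 ht hfa

theorem DT.mono {t t' : ℕ} {f : (V → Bool) → Prop} (h : DT t f) (htt : t ≤ t') : DT t' f := by
  induction htt with
  | refl => exact h
  | step _ ih => exact ih.succ

theorem DT.congr {t : ℕ} {f g : (V → Bool) → Prop} (h : DT t f) (hfg : ∀ x, f x ↔ g x) :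
    DT t g := by
  have : f = g := by
    funext x
    exact propext (hfg x)
  rwa [← this]

theorem DT.neg {t : ℕ} {f : (V → Bool) → Prop} (h : DT t f) : DT t (fun x => ¬ f x) := by
  induction h with
  | const t f b hf => exact DT.const _ _ (¬ b) (fun x => not_congr (hf x))
  | node t i f f0 f1 h0 h1 ht hfa ih0 ih1 =>
    exact DT.node _ i _ _ _ ih0 ih1 (fun x hx => not_congr (ht x hx))
      (fun x hx => not_congr (hfa x hx))

/-- A map of inputs each coordinate of which is constant, a variable, or a negated variable. -/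
def IsProj {V V' : Type} (θ : (V' → Bool) → (V → Bool)) : Prop :=
  ∀ v, (∃ b, ∀ y, θ y v = b) ∨ (∃ v' b, ∀ y, θ y v = xor b (y v'))

theorem DT.proj {V' : Type} {t : ℕ} {f : (V → Bool) → Prop} (h : DT t f)
    (θ : (V' → Bool) → (V → Bool)) (hθ : IsProj θ) : DT t (fun y => f (θ y)) := by
  induction h with
  | const t f b hf => exact DT.const _ _ b (fun y => hf (θ y))
  | node t i f f0 f1 h0 h1 ht hfa ih0 ih1 =>
    rcases hθ i with ⟨b, hb⟩ | ⟨v', b, hb⟩
    · cases b with
      | true => exact (ih1.congr (fun y => (ht (θ y) (hb y)).symm)).succ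
      | false => exact (ih0.congr (fun y => (hfa (θ y) (hb y)).symm)).succ
    · cases b with
      | true =>
        refine DT.node _ v' _ _ _ ih1 ih0 (fun y hy => ?_) (fun y hy => ?_)
        · exact hfa (θ y) (by rw [hb, hy]; rfl)
        · exact ht (θ y) (by rw [hb, hy]; rfl)
      | false =>
        refine DT.node _ v' _ _ _ ih0 ih1 (fun y hy => ?_) (fun y hy => ?_)
        · exact ht (θ y) (by rw [hb, hy]; rfl)
        · exact hfa (θ y) (by rw [hb, hy]; rfl)

/-- Certificates. -/
theorem DT.cert {t : ℕ} {f : (V → Bool) → Prop} (h : DT t f) (x : V → Bool) :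
    ∃ s : Finset V, s.card ≤ t ∧ ∀ x', (∀ v ∈ s, x' v = x v) → (f x' ↔ f x) := by
  classical
  induction h with
  | const t f b hf =>
    exact ⟨∅, by simp, fun x' _ => (hf x').trans (hf x).symm⟩
  | node t i f f0 f1 h0 h1 ht hfa ih0 ih1 =>
    cases hx : x i with
    | true =>
      obtain ⟨s, hs, hs'⟩ := ih1
      refine ⟨insert i s, (card_insert_le _ _).trans (by omega), fun x' hx' => ?_⟩
      have h1 : x' i = true := by rw [hx' i (mem_insert_self _ _), hx]
      rw [ht x' h1, ht x hx]
      exact hs' x' (fun v hv => hx' v (mem_insert_of_mem hv))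
    | false =>
      obtain ⟨s, hs, hs'⟩ := ih0
      refine ⟨insert i s, (card_insert_le _ _).trans (by omega), fun x' hx' => ?_⟩
      have h1 : x' i = false := by rw [hx' i (mem_insert_self _ _), hx]
      rw [hfa x' h1, hfa x hx]
      exact hs' x' (fun v hv => hx' v (mem_insert_of_mem hv))

/-- Two-sided certificates of size at most `t`. -/
def CertP {V : Type} (t : ℕ) (f : (V → Bool) → Prop) : Prop :=
  ∀ x, ∃ s : Finset V, s.card ≤ t ∧ ∀ x', (∀ v ∈ s, x' v = x v) → (f x' ↔ f x)

/-- Circuits with `k` levels, fan-in at most `S`, certificates of size at most `t` at the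
bottom. -/
def LevP {V : Type} (S t : ℕ) : ℕ → ((V → Bool) → Prop) → Prop
  | 0, f => CertP t f
  | k + 1, f => ∃ (s : ℕ) (g : Fin s → ((V → Bool) → Prop)), s ≤ S ∧ (∀ i, LevP S t k (g i)) ∧
      ((∀ x, f x ↔ ∃ i, g i x) ∨ (∀ x, f x ↔ ∀ i, g i x))

theorem CertP.neg {t : ℕ} {f : (V → Bool) → Prop} (h : CertP t f) :
    CertP t (fun x => ¬ f x) := by
  intro x
  obtain ⟨s, hs, hs'⟩ := h x
  exact ⟨s, hs, fun x' hx' => not_congr (hs' x' hx')⟩

theorem CertP.mono {t t' : ℕ} {f : (V → Bool) → Prop} (h : CertP t f) (htt : t ≤ t') :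
    CertP t' f := by
  intro x
  obtain ⟨s, hs, hs'⟩ := h x
  exact ⟨s, hs.trans htt, hs'⟩

theorem CertP.proj {V' : Type} {t : ℕ} {f : (V → Bool) → Prop} (h : CertP t f)
    (θ : (V' → Bool) → (V → Bool)) (hθ : IsProj θ) : CertP t (fun y => f (θ y)) := by
  classical
  intro y
  obtain ⟨s, hs, hs'⟩ := h (θ y)
  have hc : ∀ v : V, ∃ u : Finset V', u.card ≤ 1 ∧
      ∀ y', (∀ v' ∈ u, y' v' = y v') → θ y' v = θ y v := by
    intro v
    rcases hθ v with ⟨b, hb⟩ | ⟨v', b, hb⟩
    · exact ⟨∅, by simp, fun y' _ => by rw [hb, hb]⟩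
    · exact ⟨{v'}, by simp, fun y' hy' => by rw [hb, hb, hy' v' (by simp)]⟩
  choose u hu hu' using hc
  refine ⟨s.biUnion u, ?_, ?_⟩
  · refine card_biUnion_le.trans ((sum_le_sum fun v _ => hu v).trans ?_)
    simpa using hs
  · intro y' hy'
    refine hs' (θ y') fun v hv => hu' v y' fun v' hv' => hy' v' ?_
    exact mem_biUnion.2 ⟨v, hv, hv'⟩

theorem LevP.congr {S t k : ℕ} {f g : (V → Bool) → Prop} (h : LevP S t k f)
    (hfg : ∀ x, f x ↔ g x) : LevP S t k g := by
  have : f = g := by
    funext x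
    exact propext (hfg x)
  rwa [← this]

theorem LevP.neg {S t : ℕ} : ∀ {k : ℕ} {f : (V → Bool) → Prop}, LevP S t k f →
    LevP S t k (fun x => ¬ f x) := by
  intro k
  induction k with
  | zero => exact fun h => CertP.neg h
  | succ k ih =>
    rintro f ⟨s, g, hs, hg, h⟩
    refine ⟨s, fun i x => ¬ g i x, hs, fun i => ih (hg i), ?_⟩
    rcases h with h | h
    · right
      intro x
      exact (not_congr (h x)).trans not_exists
    · left
      intro x
      exact (not_congr (h x)).trans not_forall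

theorem LevP.mono {S t S' t' : ℕ} (hS : S ≤ S') (ht : t ≤ t') :
    ∀ {k : ℕ} {f : (V → Bool) → Prop}, LevP S t k f → LevP S' t' k f := by
  intro k
  induction k with
  | zero => exact fun h => CertP.mono h ht
  | succ k ih =>
    rintro f ⟨s, g, hs, hg, h⟩
    exact ⟨s, g, hs.trans hS, fun i => ih (hg i), h⟩

theorem LevP.proj {V' : Type} {S t : ℕ} (θ : (V' → Bool) → (V → Bool)) (hθ : IsProj θ) :
    ∀ {k : ℕ} {f : (V → Bool) → Prop}, LevP S t k f → LevP S t k (fun y => f (θ y)) := by
  intro k
  induction k with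
  | zero => exact fun h => CertP.proj h θ hθ
  | succ k ih =>
    rintro f ⟨s, g, hs, hg, h⟩
    refine ⟨s, fun i y => g i (θ y), hs, fun i => ih (hg i), ?_⟩
    rcases h with h | h
    · left
      intro y
      exact h (θ y)
    · right
      intro y
      exact h (θ y)

/-- Index types of the gates. -/
def Ix (G : Type) : ℕ → Type
  | 0 => Unit
  | k + 1 => Ix G k × (G × G)

/-- Alternating trees; recursion from the bottom; `b` is the type of the bottom gates
(`true`: disjunctions). -/
def Alt (G : Type) : (k : ℕ) → Bool → (Ix G k → Prop) → Prop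
  | 0, _, φ => φ ()
  | k + 1, true, φ => Alt G k false (fun i => ∃ p : G × G, φ (i, p))
  | k + 1, false, φ => Alt G k true (fun i => ∀ p : G × G, φ (i, p))

/-- The full alternating tree with `k + 1` levels; bottom gates of type `b` and fan-in `G`. -/
def Full (G : Type) (k : ℕ) (b : Bool) (x : Ix G k × G → Bool) : Prop :=
  Alt G k (!b) (fun i => if b = true then ∃ g : G, x (i, g) = true else ∀ g : G, x (i, g) = true)

/-- The value of a term (a list of literals). -/
def evT {V : Type} (π : List (V × Bool)) (x : V → Bool) : Prop := ∀ l ∈ π, x l.1 = l.2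

/-- The value of a disjunctive normal form. -/
def evF {V : Type} (F : List (List (V × Bool))) (x : V → Bool) : Prop := ∃ π ∈ F, evT π x

/-- A consistent term. -/
def Cons {V : Type} (π : List (V × Bool)) : Prop := ∀ v, ¬ ((v, true) ∈ π ∧ (v, false) ∈ π)

theorem evT_cons_of {π : List (V × Bool)} {x : V → Bool} (h : evT π x) : Cons π := by
  rintro v ⟨h1, h2⟩
  have e1 := h _ h1
  have e2 := h _ h2
  simp only at e1 e2
  rw [e1] at e2
  exact absurd e2 (by decide)

theorem evF_filter (F : List (List (V × Bool))) :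
    ∃ F' : List (List (V × Bool)), (∀ π ∈ F', π ∈ F ∧ Cons π) ∧ ∀ x, evF F x ↔ evF F' x := by
  classical
  refine ⟨F.filter (fun π => decide (Cons π)), ?_, ?_⟩
  · intro π hπ
    rw [List.mem_filter] at hπ
    exact ⟨hπ.1, by simpa using hπ.2⟩
  · intro x
    constructor
    · rintro ⟨π, hπ, h⟩
      exact ⟨π, List.mem_filter.2 ⟨hπ, by simpa using evT_cons_of h⟩, h⟩
    · rintro ⟨π, hπ, h⟩
      exact ⟨π, (List.mem_filter.1 hπ).1, h⟩

/-- A disjunction of functions with small certificates is a disjunctive normal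
form with small consistent terms. -/
theorem dnf_of_cert [Fintype V] {t : ℕ} {f : (V → Bool) → Prop} (h : CertP t f) :
    ∃ F : List (List (V × Bool)), (∀ π ∈ F, π.length ≤ t) ∧ ∀ x, f x ↔ evF F x := by
  classical
  choose s hs hs' using h
  let T : (V → Bool) → List (V × Bool) := fun x => (s x).toList.map (fun v => (v, x v))
  refine ⟨((univ : Finset (V → Bool)).filter (fun x => f x)).toList.map T, ?_, ?_⟩
  · intro π hπ
    obtain ⟨x, -, rfl⟩ := List.mem_map.1 hπ
    simp only [T, List.length_map, Finset.length_toList]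
    exact hs x
  · intro x
    constructor
    · intro hx
      refine ⟨T x, List.mem_map.2 ⟨x, by simp [hx], rfl⟩, ?_⟩
      intro l hl
      obtain ⟨v, -, rfl⟩ := List.mem_map.1 hl
      rfl
    · rintro ⟨π, hπ, hev⟩
      obtain ⟨x0, hx0, rfl⟩ := List.mem_map.1 hπ
      have hx0' : f x0 := by simpa using hx0
      refine (hs' x0 x ?_).2 hx0'
      intro v hv
      exact hev (v, x0 v) (List.mem_map.2 ⟨v, by simpa using hv, rfl⟩)

/-- A disjunction of functions with small certificates. -/
theorem dnf_of_or [Fintype V] {t s : ℕ} (g : Fin s → ((V → Bool) → Prop))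
    (hg : ∀ i, CertP t (g i)) :
    ∃ F : List (List (V × Bool)), (∀ π ∈ F, π.length ≤ t ∧ Cons π) ∧
      ∀ x, (∃ i, g i x) ↔ evF F x := by
  classical
  choose F hF hF' using fun i => dnf_of_cert (hg i)
  obtain ⟨F', h1, h2⟩ := evF_filter ((List.finRange s).flatMap F)
  refine ⟨F', ?_, ?_⟩
  · intro π hπ
    obtain ⟨h3, h4⟩ := h1 π hπ
    rw [List.mem_flatMap] at h3
    obtain ⟨i, -, hi⟩ := h3
    exact ⟨hF i π hi, h4⟩
  · intro x
    rw [← h2 x]
    constructor
    · rintro ⟨i, hi⟩
      obtain ⟨π, hπ, h⟩ := (hF' i x).1 hi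
      exact ⟨π, List.mem_flatMap.2 ⟨i, List.mem_finRange i, hπ⟩, h⟩
    · rintro ⟨π, hπ, h⟩
      obtain ⟨i, -, hi⟩ := List.mem_flatMap.1 hπ
      exact ⟨i, (hF' i x).2 ⟨π, hi, h⟩⟩

/-- `Bd s f`: the decision tree depth of `f` is at least `s`. -/
def Bd {V : Type} (s : ℕ) (f : (V → Bool) → Prop) : Prop := ∀ m, m < s → ¬ DT m f

theorem Bd.split [DecidableEq V] {s : ℕ} {f : (V → Bool) → Prop} (h : Bd s f) (i : V) :
    ∃ b, Bd (s - 1) (fun y => f (Function.update y i b)) := by
  by_contra hc
  push Not at hc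
  have h1 := hc true
  have h0 := hc false
  unfold Bd at h1 h0
  push Not at h1 h0
  obtain ⟨m1, hm1, hd1⟩ := h1
  obtain ⟨m0, hm0, hd0⟩ := h0
  have e1 : DT (s - 2) (fun y => f (Function.update y i true)) := hd1.mono (by omega)
  have e0 : DT (s - 2) (fun y => f (Function.update y i false)) := hd0.mono (by omega)
  refine h (s - 2 + 1) (by omega) (DT.node _ i f _ _ e0 e1 (fun x hx => ?_) (fun x hx => ?_))
  · rw [← hx, Function.update_eq_self]
  · rw [← hx, Function.update_eq_self]

theorem Bd.splitFinset [DecidableEq V] (Y : Finset V) :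
    ∀ {s : ℕ} {f : (V → Bool) → Prop}, Bd s f →
    ∃ τ ∈ Y.powerset, Bd (s - Y.card) (fun y => f (fun i => if i ∈ Y then decide (i ∈ τ) else y i)) := by
  induction Y using Finset.induction_on with
  | empty =>
    intro s f h
    exact ⟨∅, by simp, by simpa using h⟩
  | insert a Y ha ih =>
    intro s f h
    obtain ⟨b, hb⟩ := h.split a
    obtain ⟨τ, hτ, hd⟩ := ih hb
    rw [mem_powerset] at hτ
    have haτ : a ∉ τ := fun h => ha (hτ h)
    rw [card_insert_of_notMem ha]
    have hs : s - (Y.card + 1) = s - 1 - Y.card := by omega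
    rw [hs]
    cases b with
    | true =>
      refine ⟨insert a τ, by rw [mem_powerset]; exact insert_subset_insert a hτ, ?_⟩
      convert hd using 3 with y
      funext i
      by_cases hi : i = a
      · subst hi
        simp
      · simp [hi]
    | false =>
      refine ⟨τ, by rw [mem_powerset]; exact hτ.trans (subset_insert _ _), ?_⟩
      convert hd using 3 with y
      funext i
      by_cases hi : i = a
      · subst hi
        simp [haτ]
      · simp [hi]

end Pool.Agent.HDH
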