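import Pool.Agent.Lib_helper6.HDH.Iter

/-!
# The depth hierarchy, finite form
-/

set_option linter.unusedSectionVars false
set_option linter.unusedVariables false
set_option linter.unusedSimpArgs false

namespace Pool.Agent.HDH

open Finset

theorem Full_levP_dual {G : Type} {S t k : ℕ} {b : Bool} (h : LevP S t k (Full G k b)) :
    LevP S t k (Full G k (!b)) := by
  have hp : IsProj (fun (x : Ix G k × G → Bool) (v : Ix G k × G) => !(x v)) := by
    intro v
    right
    refine ⟨v, true, fun y => ?_⟩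
    simp
  have h1 := (h.proj _ hp).neg
  refine h1.congr fun x => ?_
  have h2 := Full_dual k (!b) x
  rw [h2]
  cases b <;> simp

theorem exists_good (G : Type) [Fintype G] [DecidableEq G] (k S t : ℕ) (q d : ℝ) (hS : 1 ≤ S)
    (hq0 : 0 < q) (hq1 : q < 1) (hd0 : 0 < d) (hd1 : d ≤ 1)
    (hd : 6 * t * (q / (1 - q)) * (1 / (1 - q)) ^ t ≤ d)
    (hk : (S : ℝ) ^ (k + 1) * d ^ (t + 1) < 1 / 2)
    (hg : 2 * (Fintype.card G : ℝ) ^ (2 * (k + 1)) * (1 - q) ^ (Fintype.card G) ≤ 1 / 2)
    (hcard : 1 ≤ Fintype.card G)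
    (f : (Ix G (k + 1) × G → Bool) → Prop) (hf : LevP S t (k + 1) f) :
    ∃ ρ : Ix G (k + 1) → Cf G, LevP S t k (fun y => f (full ρ y)) ∧
      (∀ i, ∃ j, (ρ i).2 j = true) ∧
      (∀ (i : Ix G k) (a : G), ∃ b : G, (ρ (i, (a, b))).1 = true) := by
  classical
  set g : ℕ := Fintype.card G with hgdef
  let E1 : (Ix G (k + 1) → Cf G) → Prop := fun ρ => ¬ LevP S t k (fun y => f (full ρ y))
  let E2 : (Ix G (k + 1) → Cf G) → Prop :=
    fun ρ => ∃ i ∈ (univ : Finset (Ix G (k + 1))), ∀ j, (ρ i).2 j = false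
  let Tt : Ix G k × G → Finset (Ix G (k + 1)) :=
    fun p => (univ : Finset G).image (fun b => ((p.1, (p.2, b)) : Ix G (k + 1)))
  let E3 : (Ix G (k + 1) → Cf G) → Prop :=
    fun ρ => ∃ p ∈ (univ : Finset (Ix G k × G)), ∀ i ∈ Tt p, (ρ i).1 = false
  have hT : ∀ p, (Tt p).card = g := by
    intro p
    have hinj : Function.Injective (fun b : G => ((p.1, (p.2, b)) : Ix G (k + 1))) := by
      intro b b' hbb
      have h1 : ((p.1, (p.2, b)) : Ix G k × (G × G)) = (p.1, (p.2, b')) := hbb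
      simpa using h1
    exact (card_image_of_injective univ hinj).trans card_univ
  have p1 : Pr q E1 ≤ (S : ℝ) ^ k * d ^ (t + 1) := lev_prob q d hq0 hq1 hd0 hd1 S t hd k f hf
  have p2 : Pr q E2 ≤ (g : ℝ) ^ (2 * (k + 1)) * (1 - q) ^ g := by
    refine (Pr_ex hq0.le hq1.le _ _).trans ?_
    have : ∀ i : Ix G (k + 1), Pr q (fun ρ : Ix G (k + 1) → Cf G => ∀ j, (ρ i).2 j = false) =
        (1 - q) ^ g := fun i => Pr_empty q i
    simp_rw [this]
    rw [sum_const, card_univ, Ix.card, nsmul_eq_mul]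
    push_cast
    exact le_rfl
  have p3 : Pr q E3 ≤ (g : ℝ) ^ (2 * (k + 1)) * (1 - q) ^ g := by
    refine (Pr_ex hq0.le hq1.le _ _).trans ?_
    have : ∀ p : Ix G k × G, Pr q (fun ρ : Ix G (k + 1) → Cf G => ∀ i ∈ Tt p, (ρ i).1 = false) =
        (1 - q) ^ g := fun p => by rw [Pr_dead q (Tt p), hT p]
    simp_rw [this]
    rw [sum_const, card_univ, Fintype.card_prod, Ix.card, nsmul_eq_mul]
    push_cast
    have h1 : (1 : ℝ) ≤ g := by exact_mod_cast hcard
    have h2 : (0 : ℝ) ≤ (1 - q) ^ g := pow_nonneg (by linarith) _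
    refine mul_le_mul_of_nonneg_right ?_ h2
    have h3 : (g : ℝ) ^ (2 * (k + 1)) = (g : ℝ) ^ (2 * k) * g * g := by
      rw [mul_add, pow_add]
      ring
    rw [h3]
    have h4 : 0 ≤ (g : ℝ) ^ (2 * k) * g := by positivity
    nlinarith
  have hS1 : (1 : ℝ) ≤ S := by exact_mod_cast hS
  have hle : (S : ℝ) ^ k * d ^ (t + 1) < 1 / 2 := by
    refine lt_of_le_of_lt ?_ hk
    refine mul_le_mul_of_nonneg_right ?_ (by positivity)
    exact pow_le_pow_right₀ hS1 (by omega)
  have htot : Pr q (fun ρ => (E1 ρ ∨ E2 ρ) ∨ E3 ρ) < 1 := by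
    have a1 := Pr_or hq0.le hq1.le (fun ρ => E1 ρ ∨ E2 ρ) E3
    have a2 := Pr_or hq0.le hq1.le E1 E2
    linarith
  obtain ⟨ρ, hρ⟩ := Pr_exists htot
  push Not at hρ
  obtain ⟨⟨h1, h2⟩, h3⟩ := hρ
  refine ⟨ρ, ?_, ?_, ?_⟩
  · by_contra hc
    exact h1 hc
  · intro i
    by_contra hc
    push Not at hc
    exact h2 ⟨i, mem_univ i, fun j => by simpa using hc j⟩
  · intro i a
    by_contra hc
    push Not at hc
    refine h3 ⟨(i, a), mem_univ _, fun i' hi' => ?_⟩
    obtain ⟨b, -, rfl⟩ := mem_image.1 hi'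
    simpa using hc b

theorem step (G : Type) [Fintype G] [DecidableEq G] (k S t : ℕ) (q d : ℝ) (hS : 1 ≤ S)
    (hq0 : 0 < q) (hq1 : q < 1) (hd0 : 0 < d) (hd1 : d ≤ 1)
    (hd : 6 * t * (q / (1 - q)) * (1 / (1 - q)) ^ t ≤ d)
    (hk : (S : ℝ) ^ (k + 1) * d ^ (t + 1) < 1 / 2)
    (hg : 2 * (Fintype.card G : ℝ) ^ (2 * (k + 1)) * (1 - q) ^ (Fintype.card G) ≤ 1 / 2)
    (hcard : 1 ≤ Fintype.card G) (hf : LevP S t (k + 1) (Full G (k + 1) false)) :
    LevP S t k (Full G k true) := by
  obtain ⟨ρ, h1, h2, h3⟩ := exists_good G k S t q d hS hq0 hq1 hd0 hd1 hd hk hg hcard _ hf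
  choose sel hsel using h3
  let θ : (Ix G k × G → Bool) → (Ix G (k + 1) → Bool) := fun z (i : Ix G k × (G × G)) =>
    if i.2.2 = sel i.1 i.2.1 then z (i.1, i.2.1) else false
  have hθ : IsProj θ := by
    intro (i : Ix G k × (G × G))
    by_cases hi : i.2.2 = sel i.1 i.2.1
    · right
      refine ⟨(i.1, i.2.1), false, fun y => ?_⟩
      change (if i.2.2 = sel i.1 i.2.1 then y (i.1, i.2.1) else false) = _
      rw [if_pos hi]
      simp
    · left
      refine ⟨false, fun y => ?_⟩
      change (if i.2.2 = sel i.1 i.2.1 then y (i.1, i.2.1) else false) = _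
      rw [if_neg hi]
  refine (h1.proj θ hθ).congr fun z => ?_
  change Alt G k false (fun i => ∃ p : G × G, if false = true then
      ∃ g : G, full ρ (θ z) ((i, p), g) = true else ∀ g : G, full ρ (θ z) ((i, p), g) = true) ↔
    Alt G k false (fun i => if true = true then ∃ g : G, z (i, g) = true else
      ∀ g : G, z (i, g) = true)
  have key : (fun i : Ix G k => ∃ p : G × G, if false = true then
      ∃ g : G, full ρ (θ z) ((i, p), g) = true else ∀ g : G, full ρ (θ z) ((i, p), g) = true) =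
    (fun i : Ix G k => if true = true then ∃ g : G, z (i, g) = true else
      ∀ g : G, z (i, g) = true) := by
    funext i
    rw [if_pos rfl]
    simp only [Bool.false_eq_true, if_false]
    refine propext ⟨?_, ?_⟩
    · rintro ⟨⟨a, b⟩, h⟩
      obtain ⟨g, hg'⟩ := h2 ((i, (a, b)) : Ix G (k + 1))
      have h4 := h g
      unfold full val at h4
      simp only [hg', Bool.not_true, Bool.false_or, Bool.and_eq_true] at h4
      obtain ⟨-, h5⟩ := h4
      change (if b = sel i a then z (i, a) else false) = true at h5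
      split_ifs at h5 with hb
      exact ⟨a, h5⟩
    · rintro ⟨a, ha⟩
      refine ⟨(a, sel i a), fun g => ?_⟩
      unfold full val
      have h5 : θ z ((i, (a, sel i a)) : Ix G (k + 1)) = true := by
        change (if sel i a = sel i a then z (i, a) else false) = true
        rw [if_pos rfl, ha]
      simp only [h5, hsel i a, Bool.and_self, Bool.or_true]
  rw [key]

theorem core_false (G : Type) [Fintype G] [DecidableEq G] (S t : ℕ) (q d : ℝ) (hS : 1 ≤ S)
    (hq0 : 0 < q) (hq1 : q < 1) (hd0 : 0 < d) (hd1 : d ≤ 1)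
    (hd : 6 * t * (q / (1 - q)) * (1 / (1 - q)) ^ t ≤ d) (hgt : t < Fintype.card G) :
    ∀ k : ℕ, (S : ℝ) ^ k * d ^ (t + 1) < 1 / 2 →
      2 * (Fintype.card G : ℝ) ^ (2 * k) * (1 - q) ^ (Fintype.card G) ≤ 1 / 2 →
      ¬ LevP S t k (Full G k false) := by
  classical
  have hS1 : (1 : ℝ) ≤ S := by exact_mod_cast hS
  have hcard : 1 ≤ Fintype.card G := by omega
  have hc1 : (1 : ℝ) ≤ Fintype.card G := by exact_mod_cast hcard
  intro k
  induction k with
  | zero =>
    intro _ _ h
    have h' : CertP t (Full G 0 false) := h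
    obtain ⟨s, hs, hs'⟩ := h' (fun _ => true)
    have hex : ∃ g : G, (((), g) : Ix G 0 × G) ∉ s := by
      by_contra hc
      push Not at hc
      have h1 : ((univ : Finset G).image (fun g => (((), g) : Ix G 0 × G))) ⊆ s := by
        intro v hv
        obtain ⟨g, -, rfl⟩ := mem_image.1 hv
        exact hc g
      have h2 := card_le_card h1
      rw [card_image_of_injective _ (by
        intro g g' hgg
        have h1 : (((), g) : Unit × G) = ((), g') := hgg
        simpa using h1), card_univ] at h2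
      omega
    obtain ⟨g, hg⟩ := hex
    have h3 := hs' (Function.update (fun _ => true) (((), g) : Ix G 0 × G) false) (by
      intro v hv
      rw [Function.update_of_ne]
      rintro rfl
      exact hg hv)
    have hF : ∀ x : Ix G 0 × G → Bool, Full G 0 false x ↔ ∀ g : G, x ((), g) = true := by
      intro x
      change (if false = true then (∃ g : G, x ((), g) = true) else
        ∀ g : G, x ((), g) = true) ↔ _
      simp
    have h4 : Full G 0 false (fun _ => true) := (hF _).2 (fun _ => rfl)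
    have h5 := (hF _).1 (h3.2 h4)
    have h6 := h5 g
    rw [Function.update_self] at h6
    exact absurd h6 (by decide)
  | succ k ih =>
    intro hk hg h
    have hg' : 2 * (Fintype.card G : ℝ) ^ (2 * k) * (1 - q) ^ (Fintype.card G) ≤ 1 / 2 := by
      refine le_trans ?_ hg
      refine mul_le_mul_of_nonneg_right ?_ (pow_nonneg (by linarith) _)
      refine mul_le_mul_of_nonneg_left ?_ (by norm_num)
      exact pow_le_pow_right₀ hc1 (by omega)
    have hk' : (S : ℝ) ^ k * d ^ (t + 1) < 1 / 2 := by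
      refine lt_of_le_of_lt ?_ hk
      refine mul_le_mul_of_nonneg_right ?_ (by positivity)
      exact pow_le_pow_right₀ hS1 (by omega)
    have h1 := step G k S t q d hS hq0 hq1 hd0 hd1 hd hk hg hcard h
    exact ih hk' hg' (Full_levP_dual h1)

theorem core (G : Type) [Fintype G] [DecidableEq G] (k S t : ℕ) (q d : ℝ) (hS : 1 ≤ S)
    (hq0 : 0 < q) (hq1 : q < 1) (hd0 : 0 < d) (hd1 : d ≤ 1)
    (hd : 6 * t * (q / (1 - q)) * (1 / (1 - q)) ^ t ≤ d)
    (hk : (S : ℝ) ^ k * d ^ (t + 1) < 1 / 2)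
    (hg : 2 * (Fintype.card G : ℝ) ^ (2 * k) * (1 - q) ^ (Fintype.card G) ≤ 1 / 2)
    (hgt : t < Fintype.card G) (b : Bool) : ¬ LevP S t k (Full G k b) := by
  intro h
  refine core_false G S t q d hS hq0 hq1 hd0 hd1 hd hgt k hk hg ?_
  cases b with
  | false => exact h
  | true => exact Full_levP_dual h

end Pool.Agent.HDH
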