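import Pool.Agent.Lib_helper37.HDH.Switch

/-!
# The iteration over the levels
-/

set_option linter.unusedSectionVars false
set_option linter.unusedVariables false
set_option linter.unusedSimpArgs false

namespace Pool.Agent.HDH

open Finset

theorem DT.toCertP {V : Type} {t : ℕ} {f : (V → Bool) → Prop} (h : DT t f) : CertP t f :=
  fun x => h.cert x

section inst

variable (G : Type) [Fintype G] [DecidableEq G]

instance Ix.fintype : ∀ k, Fintype (Ix G k)
  | 0 => inferInstanceAs (Fintype Unit)
  | k + 1 => by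
    haveI := Ix.fintype k
    exact inferInstanceAs (Fintype (Ix G k × (G × G)))

instance Ix.decEq : ∀ k, DecidableEq (Ix G k)
  | 0 => inferInstanceAs (DecidableEq Unit)
  | k + 1 => by
    haveI := Ix.decEq k
    exact inferInstanceAs (DecidableEq (Ix G k × (G × G)))

theorem Ix.card : ∀ k, Fintype.card (Ix G k) = (Fintype.card G) ^ (2 * k)
  | 0 => by
    change Fintype.card Unit = _
    simp
  | k + 1 => by
    change Fintype.card (Ix G k × (G × G)) = _
    rw [Fintype.card_prod, Ix.card k, Fintype.card_prod]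
    ring

end inst

section prob

variable {I J : Type} [Fintype I] [DecidableEq I] [Fintype J] [DecidableEq J]

/-- The input obtained from a restriction and the values of the blocks. -/
def full (ρ : I → Cf J) (y : I → Bool) : I × J → Bool := fun v => val (ρ v.1) (y v.1) v.2

theorem lev_prob (q d : ℝ) (hq0 : 0 < q) (hq1 : q < 1) (hd0 : 0 < d) (hd1 : d ≤ 1) (S t : ℕ)
    (hd : 6 * t * (q / (1 - q)) * (1 / (1 - q)) ^ t ≤ d) :
    ∀ (k : ℕ) (f : (I × J → Bool) → Prop), LevP S t (k + 1) f →
      Pr q (fun ρ : I → Cf J => ¬ LevP S t k (fun y => f (full ρ y))) ≤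
        (S : ℝ) ^ k * d ^ (t + 1) := by
  intro k
  induction k with
  | zero =>
    rintro f ⟨s, g, hs, hg, h⟩
    rw [pow_zero, one_mul]
    rcases h with h | h
    · obtain ⟨F, hF, hF'⟩ := dnf_of_or g hg
      refine (Pr_mono hq0.le hq1.le ?_).trans (switch q d hq0 hq1 hd0 hd1 t hd F hF)
      intro ρ hρ hDT
      refine hρ ?_
      change CertP t _
      refine DT.toCertP (hDT.congr fun y => ?_)
      rw [← hF', ← h]
      rfl
    · obtain ⟨F, hF, hF'⟩ := dnf_of_or (fun i x => ¬ g i x) (fun i => CertP.neg (hg i))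
      refine (Pr_mono hq0.le hq1.le ?_).trans (switch q d hq0 hq1 hd0 hd1 t hd F hF)
      intro ρ hρ hDT
      refine hρ ?_
      change CertP t _
      refine DT.toCertP (hDT.neg.congr fun y => ?_)
      rw [← hF', h, not_exists]
      refine forall_congr' fun i => ?_
      rw [not_not]
      rfl
  | succ k ih =>
    rintro f ⟨s, g, hs, hg, h⟩
    have h1 : Pr q (fun ρ : I → Cf J => ¬ LevP S t (k + 1) (fun y => f (full ρ y))) ≤
        Pr q (fun ρ : I → Cf J => ∃ i ∈ (univ : Finset (Fin s)),
          ¬ LevP S t k (fun y => g i (full ρ y))) := by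
      refine Pr_mono hq0.le hq1.le fun ρ hρ => ?_
      by_contra hc
      push Not at hc
      refine hρ ⟨s, fun i y => g i (full ρ y), hs, fun i => hc i (mem_univ i), ?_⟩
      rcases h with h | h
      · left
        intro y
        exact h _
      · right
        intro y
        exact h _
    refine h1.trans ((Pr_ex hq0.le hq1.le _ _).trans ((sum_le_sum fun i _ => ih (g i) (hg i)).trans ?_))
    rw [sum_const, card_univ, Fintype.card_fin, nsmul_eq_mul, pow_succ]
    have hs' : (s : ℝ) ≤ S := by exact_mod_cast hs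
    have hp : 0 ≤ (S : ℝ) ^ k * d ^ (t + 1) := by positivity
    calc (s : ℝ) * ((S : ℝ) ^ k * d ^ (t + 1)) ≤ S * ((S : ℝ) ^ k * d ^ (t + 1)) :=
          mul_le_mul_of_nonneg_right hs' hp
      _ = _ := by ring

open Classical in
theorem pc_dead (q : ℝ) : ∑ c : Cf J, (if c.1 = false then pc q c else 0) = 1 - q := by
  rw [Fintype.sum_prod_type, Fintype.sum_bool]
  simp only [pc, Bool.true_eq_false, if_false, sum_const_zero, zero_add, if_true]
  rw [← Finset.mul_sum, pvv_sum, mul_one]
  simp [pv]

open Classical in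
theorem pc_empty (q : ℝ) : ∑ c : Cf J, (if (∀ j, c.2 j = false) then pc q c else 0) =
    (1 - q) ^ (Fintype.card J) := by
  rw [Fintype.sum_prod_type]
  have h1 : ∀ a : Bool, ∑ v : J → Bool, (if (∀ j, ((a, v) : Cf J).2 j = false) then
      pc q ((a, v) : Cf J) else 0) = pv q a * (1 - q) ^ (Fintype.card J) := by
    intro a
    rw [Finset.sum_eq_single (fun _ => false)]
    · simp [pc, pv]
    · intro v _ hv
      rw [if_neg]
      intro hc
      exact hv (funext hc)
    · intro h
      exact absurd (mem_univ _) h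
  rw [Fintype.sum_bool, h1, h1, ← add_mul, pv_sum', one_mul]

theorem Pr_empty (q : ℝ) (i : I) :
    Pr q (fun ρ : I → Cf J => ∀ j, (ρ i).2 j = false) = (1 - q) ^ (Fintype.card J) := by
  have h := Pr_prod q {i} (fun (_ : I) (c : Cf J) => ∀ j, c.2 j = false)
  rw [prod_singleton] at h
  have e1 : Pr q (fun ρ : I → Cf J => ∀ j, (ρ i).2 j = false) =
      Pr q (fun ρ : I → Cf J => ∀ i' ∈ ({i} : Finset I), ∀ j, (ρ i').2 j = false) := by
    congr 1
    funext ρ
    simp
  rw [e1, h]
  convert pc_empty (J := J) q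

theorem Pr_dead (q : ℝ) (T : Finset I) :
    Pr q (fun ρ : I → Cf J => ∀ i ∈ T, (ρ i).1 = false) = (1 - q) ^ T.card := by
  have h := Pr_prod q T (fun (_ : I) (c : Cf J) => c.1 = false)
  rw [h, prod_const]
  congr 1
  convert pc_dead (J := J) q

end prob

section dual

variable {G : Type}

theorem Alt_neg : ∀ (k : ℕ) (b : Bool) (φ : Ix G k → Prop),
    Alt G k b (fun i => ¬ φ i) ↔ ¬ Alt G k (!b) φ
  | 0, b, φ => Iff.rfl
  | k + 1, true, φ => by
    change Alt G k false (fun i => ∃ p : G × G, ¬ φ (i, p)) ↔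
      ¬ Alt G k true (fun i => ∀ p : G × G, φ (i, p))
    have := Alt_neg k false (fun i => ∀ p : G × G, φ (i, p))
    simp only [not_forall] at this
    exact this
  | k + 1, false, φ => by
    change Alt G k true (fun i => ∀ p : G × G, ¬ φ (i, p)) ↔
      ¬ Alt G k false (fun i => ∃ p : G × G, φ (i, p))
    have := Alt_neg k true (fun i => ∃ p : G × G, φ (i, p))
    simp only [not_exists] at this
    exact this

theorem Full_dual (k : ℕ) (b : Bool) (x : Ix G k × G → Bool) :
    Full G k b x ↔ ¬ Full G k (!b) (fun v => !(x v)) := by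
  unfold Full
  rw [← Alt_neg]
  cases b with
  | true =>
    simp
  | false =>
    simp

end dual

end Pool.Agent.HDH
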