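import Pool.Agent.Lib_helper6.HDH.Basic

/-!
# Block restrictions: weights, resampling, events
-/

set_option linter.unusedSectionVars false
set_option linter.unusedVariables false
set_option linter.unusedSimpArgs false

namespace Pool.Agent.HDH

open Finset

variable {I J : Type} [Fintype I] [DecidableEq I] [Fintype J] [DecidableEq J]

/-- Block configurations: the first component says whether the block is alive, the second
component marks the variables which take the value of the block (0 if the block is dead);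
the other variables are fixed to 1. -/
abbrev Cf (J : Type) := Bool × (J → Bool)

/-- weight of one bit -/
noncomputable def pv (q : ℝ) (b : Bool) : ℝ := if b = true then q else 1 - q

/-- weight of one block configuration -/
noncomputable def pc (q : ℝ) (c : Cf J) : ℝ := pv q c.1 * ∏ j, pv q (c.2 j)

/-- weight of a restriction -/
noncomputable def WW (q : ℝ) (ρ : I → Cf J) : ℝ := ∏ i, pc q (ρ i)

theorem pv_nonneg {q : ℝ} (h0 : 0 ≤ q) (h1 : q ≤ 1) (b : Bool) : 0 ≤ pv q b := by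
  unfold pv
  split_ifs <;> linarith

theorem pc_nonneg {q : ℝ} (h0 : 0 ≤ q) (h1 : q ≤ 1) (c : Cf J) : 0 ≤ pc q c :=
  mul_nonneg (pv_nonneg h0 h1 _) (prod_nonneg fun _ _ => pv_nonneg h0 h1 _)

theorem WW_nonneg {q : ℝ} (h0 : 0 ≤ q) (h1 : q ≤ 1) (ρ : I → Cf J) : 0 ≤ WW q ρ :=
  prod_nonneg fun _ _ => pc_nonneg h0 h1 _

theorem pv_sum' (q : ℝ) : pv q true + pv q false = 1 := by
  simp [pv]

theorem pv_sum (q : ℝ) : ∑ b, pv q b = 1 := by
  rw [Fintype.sum_bool]
  exact pv_sum' q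

theorem pvv_sum (q : ℝ) : ∑ v : J → Bool, ∏ j, pv q (v j) = 1 := by
  have h := (Finset.prod_univ_sum (fun _ : J => (univ : Finset Bool)) (fun _ b => pv q b)).symm
  rw [Fintype.piFinset_univ] at h
  rw [h]
  simp [pv_sum']

theorem pc_sum (q : ℝ) : ∑ c : Cf J, pc q c = 1 := by
  unfold pc
  rw [Fintype.sum_prod_type]
  simp only
  simp_rw [← Finset.mul_sum]
  rw [pvv_sum]
  simp [pv_sum']

/-- sums of products -/
theorem WW_pi (q : ℝ) (s : I → Finset (Cf J)) (w : I → Cf J → ℝ) :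
    ∑ ρ ∈ Fintype.piFinset s, ∏ i, w i (ρ i) = ∏ i, ∑ c ∈ s i, w i c :=
  (Finset.prod_univ_sum s w).symm

theorem WW_sum (q : ℝ) : ∑ ρ : I → Cf J, WW q ρ = 1 := by
  have h := WW_pi q (fun _ : I => (univ : Finset (Cf J))) (fun _ c => pc q c)
  rw [Fintype.piFinset_univ] at h
  unfold WW
  rw [h]
  simp [pc_sum]

open Classical in
/-- The probability of an event. -/
noncomputable def Pr (q : ℝ) (E : (I → Cf J) → Prop) : ℝ := ∑ ρ, if E ρ then WW q ρ else 0

theorem Pr_nonneg {q : ℝ} (h0 : 0 ≤ q) (h1 : q ≤ 1) (E : (I → Cf J) → Prop) : 0 ≤ Pr q E := by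
  unfold Pr
  refine sum_nonneg fun ρ _ => ?_
  split_ifs
  · exact WW_nonneg h0 h1 ρ
  · exact le_rfl

theorem Pr_mono {q : ℝ} (h0 : 0 ≤ q) (h1 : q ≤ 1) {E E' : (I → Cf J) → Prop}
    (h : ∀ ρ, E ρ → E' ρ) : Pr q E ≤ Pr q E' := by
  unfold Pr
  refine sum_le_sum fun ρ _ => ?_
  by_cases hE : E ρ
  · rw [if_pos hE, if_pos (h ρ hE)]
  · rw [if_neg hE]
    split_ifs
    · exact WW_nonneg h0 h1 ρ
    · exact le_rfl

theorem Pr_or {q : ℝ} (h0 : 0 ≤ q) (h1 : q ≤ 1) (E E' : (I → Cf J) → Prop) :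
    Pr q (fun ρ => E ρ ∨ E' ρ) ≤ Pr q E + Pr q E' := by
  unfold Pr
  rw [← sum_add_distrib]
  refine sum_le_sum fun ρ _ => ?_
  have := WW_nonneg h0 h1 ρ
  by_cases hE : E ρ <;> by_cases hE' : E' ρ <;> simp [hE, hE', this]

theorem Pr_ex {q : ℝ} (h0 : 0 ≤ q) (h1 : q ≤ 1) {κ : Type} (s : Finset κ)
    (E : κ → (I → Cf J) → Prop) :
    Pr q (fun ρ => ∃ a ∈ s, E a ρ) ≤ ∑ a ∈ s, Pr q (E a) := by
  classical
  induction s using Finset.induction_on with
  | empty =>
    simp only [notMem_empty, false_and, exists_false, sum_empty]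
    unfold Pr
    simp
  | insert a s ha ih =>
    rw [sum_insert ha]
    refine le_trans (le_trans (Pr_mono h0 h1 ?_) (Pr_or h0 h1 (E a) (fun ρ => ∃ a ∈ s, E a ρ)))
      (add_le_add le_rfl ih)
    rintro ρ ⟨b, hb, hE⟩
    rcases mem_insert.1 hb with rfl | hb
    · exact Or.inl hE
    · exact Or.inr ⟨b, hb, hE⟩

theorem Pr_split (q : ℝ) (E A : (I → Cf J) → Prop) :
    Pr q E = Pr q (fun ρ => E ρ ∧ A ρ) + Pr q (fun ρ => E ρ ∧ ¬ A ρ) := by
  unfold Pr
  rw [← sum_add_distrib]
  refine sum_congr rfl fun ρ _ => ?_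
  by_cases hE : E ρ <;> by_cases hA : A ρ <;> simp [hE, hA]

theorem Pr_true (q : ℝ) : Pr q (fun _ : I → Cf J => True) = 1 := by
  unfold Pr
  simp [WW_sum]

theorem Pr_exists {q : ℝ} {E : (I → Cf J) → Prop} (h : Pr q E < 1) : ∃ ρ, ¬ E ρ := by
  by_contra hc
  push Not at hc
  have : Pr q E = 1 := by
    rw [← Pr_true (I := I) (J := J) q]
    unfold Pr
    refine sum_congr rfl fun ρ _ => ?_
    simp [hc ρ]
  linarith

open Classical in
/-- The probability of a product event. -/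
theorem Pr_prod (q : ℝ) (T : Finset I) (B : I → Cf J → Prop) :
    Pr q (fun ρ : I → Cf J => ∀ i ∈ T, B i (ρ i)) =
      ∏ i ∈ T, ∑ c : Cf J, if B i c then pc q c else 0 := by
  have h := WW_pi q (fun i : I => (univ : Finset (Cf J)).filter (fun c => i ∈ T → B i c))
    (fun _ c => pc q c)
  have e1 : Pr q (fun ρ : I → Cf J => ∀ i ∈ T, B i (ρ i)) =
      ∑ ρ ∈ Fintype.piFinset (fun i : I => (univ : Finset (Cf J)).filter
        (fun c => i ∈ T → B i c)), ∏ i, pc q (ρ i) := by
    unfold Pr WW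
    rw [← sum_subset (subset_univ (Fintype.piFinset (fun i : I =>
      (univ : Finset (Cf J)).filter (fun c => i ∈ T → B i c))))]
    · refine sum_congr rfl fun ρ hρ => ?_
      rw [if_pos]
      intro i hi
      have := Fintype.mem_piFinset.1 hρ i
      rw [mem_filter] at this
      exact this.2 hi
    · intro ρ _ hρ
      rw [if_neg]
      intro hc
      exact hρ (Fintype.mem_piFinset.2 fun i => by
        rw [mem_filter]
        exact ⟨mem_univ _, fun hi => hc i hi⟩)
  rw [e1, h]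
  rw [← prod_subset (subset_univ T) (f := fun i => ∑ c ∈ (univ : Finset (Cf J)).filter
        (fun c => i ∈ T → B i c), pc q c)]
  · refine prod_congr rfl fun i hi => ?_
    rw [sum_filter]
    refine sum_congr rfl fun c _ => ?_
    simp [hi]
  · intro i _ hi
    have : (univ : Finset (Cf J)).filter (fun c => i ∈ T → B i c) = univ := by
      ext c
      simp [hi]
    rw [this, pc_sum]

/-- Mixing two restrictions. -/
def mix (T : Finset I) (ρ ρ' : I → Cf J) : I → Cf J := fun i => if i ∈ T then ρ i else ρ' i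

theorem mix_invol (T : Finset I) (ρ ρ' : I → Cf J) :
    mix T (mix T ρ ρ') (mix T ρ' ρ) = ρ := by
  funext i
  unfold mix
  split_ifs <;> rfl

theorem WW_mix (q : ℝ) (T : Finset I) (ρ ρ' : I → Cf J) :
    WW q (mix T ρ ρ') * WW q (mix T ρ' ρ) = WW q ρ * WW q ρ' := by
  unfold WW
  rw [← prod_mul_distrib, ← prod_mul_distrib]
  refine prod_congr rfl fun i _ => ?_
  unfold mix
  split_ifs
  · rfl
  · ring

/-- Resampling outside of `T`. -/
theorem resample (q : ℝ) (T : Finset I) (g : (I → Cf J) → ℝ) :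
    ∑ ρ, WW q ρ * g ρ = ∑ ρ, WW q ρ * ∑ ρ', WW q ρ' * g (mix T ρ ρ') := by
  have e1 : ∑ ρ : I → Cf J, WW q ρ * g ρ =
      ∑ x : (I → Cf J) × (I → Cf J), WW q x.1 * WW q x.2 * g x.1 := by
    rw [Fintype.sum_prod_type]
    refine sum_congr rfl fun ρ _ => ?_
    simp only
    have : ∑ y : I → Cf J, WW q ρ * WW q y * g ρ = (∑ y : I → Cf J, WW q y) * (WW q ρ * g ρ) := by
      rw [sum_mul]
      refine sum_congr rfl fun y _ => ?_
      ring
    rw [this, WW_sum, one_mul]
  have e2 : ∑ ρ : I → Cf J, WW q ρ * ∑ ρ', WW q ρ' * g (mix T ρ ρ') =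
      ∑ x : (I → Cf J) × (I → Cf J), WW q x.1 * WW q x.2 * g (mix T x.1 x.2) := by
    rw [Fintype.sum_prod_type]
    refine sum_congr rfl fun ρ _ => ?_
    simp only
    rw [mul_sum]
    refine sum_congr rfl fun y _ => ?_
    ring
  rw [e1, e2]
  let φ : (I → Cf J) × (I → Cf J) → (I → Cf J) × (I → Cf J) :=
    fun x => (mix T x.1 x.2, mix T x.2 x.1)
  have hφ : Function.Involutive φ := by
    rintro ⟨ρ, ρ'⟩
    simp only [φ, mix_invol]
  refine (Fintype.sum_equiv (Function.Involutive.toPerm φ hφ) _ _ fun x => ?_).symm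
  have : (Function.Involutive.toPerm φ hφ) x = φ x := rfl
  rw [this]
  simp only [φ, WW_mix]

end Pool.Agent.HDH
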